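import Mathlib
import Pool.Agent.H8.StickDefs

namespace Pool.Agent.Results.MP_32269d_co.Dyadic
open Pool.Agent.H8.Stick

noncomputable def r (k : ℕ) : ℝ := (2 : ℝ) ^ (-(1 : ℝ) / 2 ^ (k + 1))
noncomputable def g (a k : ℕ) : ℝ := 2 - 2 * r k ^ a

lemma r_pos (k : ℕ) : 0 < r k := Real.rpow_pos_of_pos (by norm_num) _
lemma r_lt (k : ℕ) : r k < 1 :=
  Real.rpow_lt_one_of_one_lt_of_neg (by norm_num) (by
    have : (0 : ℝ) < 2 ^ (k + 1) := by positivity
    rw [neg_div]; exact neg_neg_of_pos (by positivity))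
lemma r_sq (k : ℕ) : r (k + 1) ^ 2 = r k := by
  unfold r
  rw [← Real.rpow_natCast, ← Real.rpow_mul (by norm_num)]
  congr 1; push_cast; field_simp; ring
lemma r_pow (k : ℕ) : r k ^ (2 ^ (k + 1)) = 1 / 2 := by
  unfold r
  rw [← Real.rpow_natCast, ← Real.rpow_mul (by norm_num)]
  have : -(1 : ℝ) / 2 ^ (k + 1) * ((2 ^ (k + 1) : ℕ) : ℝ) = -1 := by push_cast; field_simp
  rw [this, Real.rpow_neg_one]; norm_num
lemma r_mono {k K : ℕ} (h : k ≤ K) : r k ≤ r K := by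
  unfold r
  apply Real.rpow_le_rpow_of_exponent_le (by norm_num)
  rw [neg_div, neg_div, neg_le_neg_iff]
  apply one_div_le_one_div_of_le (by positivity)
  exact pow_le_pow_right₀ (by norm_num) (by omega)
lemma g_lt {a b : ℕ} (k : ℕ) (h : a < b) : g a k < g b k := by
  have := pow_lt_pow_right_of_lt_one₀ (r_pos k) (r_lt k) h
  unfold g; linarith
lemma g_lt_iff {a b : ℕ} (k : ℕ) : g a k < g b k ↔ a < b :=
  (strictMono_nat_of_lt_succ (f := fun a => g a k) (fun _ => g_lt k (Nat.lt_succ_self _))).lt_iff_lt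
lemma g_le_iff {a b : ℕ} (k : ℕ) : g a k ≤ g b k ↔ a ≤ b :=
  (strictMono_nat_of_lt_succ (f := fun a => g a k) (fun _ => g_lt k (Nat.lt_succ_self _))).le_iff_le
lemma g_zero (k : ℕ) : g 0 k = 0 := by simp [g]
lemma g_top (k : ℕ) : g (2 ^ (k + 1)) k = 1 := by unfold g; rw [r_pow]; norm_num
lemma g_two (a k : ℕ) : g (2 * a) (k + 1) = g a k := by unfold g; rw [pow_mul, r_sq]

noncomputable def x (m : ℕ) : ℝ :=
  g (2 * (m + 1 - 2 ^ Nat.log 2 (m + 1)) + 1) (Nat.log 2 (m + 1))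

lemma x_eq {m k j : ℕ} (hj : j < 2 ^ k) (h : m + 1 = 2 ^ k + j) : x m = g (2 * j + 1) k := by
  have : Nat.log 2 (m + 1) = k := by
    apply Nat.log_eq_of_pow_le_of_lt_pow <;> [omega; (rw [pow_succ]; omega)]
  unfold x; rw [this]; congr 1; omega

lemma decomp (t : ℕ) (ht : 1 ≤ t) : ∃ k j, j < 2 ^ k ∧ t = 2 ^ k + j := by
  have h1 := Nat.pow_log_le_self 2 (show t ≠ 0 by omega)
  have h2 := Nat.lt_pow_succ_log_self (show 1 < 2 by norm_num) t
  refine ⟨Nat.log 2 t, t - 2 ^ Nat.log 2 t, ?_, by omega⟩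
  rw [pow_succ] at h2; omega

def E (t : ℕ) : Set ℝ := {0, 1} ∪ x '' {i | i + 1 < t}

lemma E_succ (t : ℕ) (y : ℝ) : y ∈ E (t + 2) ↔ y ∈ E (t + 1) ∨ y = x t := by
  simp only [E, Set.mem_union, Set.mem_image, Set.mem_ofPred_eq]
  constructor
  · rintro (h | ⟨i, hi, rfl⟩)
    · exact Or.inl (Or.inl h)
    · by_cases h : i = t
      · exact Or.inr (by rw [h])
      · exact Or.inl (Or.inr ⟨i, by omega, rfl⟩)
  · rintro ((h | ⟨i, hi, rfl⟩) | rfl)
    · exact Or.inl h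
    · exact Or.inr ⟨i, by omega, rfl⟩
    · exact Or.inr ⟨t, by omega, rfl⟩

lemma E_step (k : ℕ)
    (h0 : ∀ y, y ∈ E (2 ^ k) ↔ ∃ a ≤ 2 ^ (k + 1), Even a ∧ y = g a k) (j : ℕ) (hj : j ≤ 2 ^ k) :
    ∀ y, y ∈ E (2 ^ k + j) ↔ ∃ a ≤ 2 ^ (k + 1), (Even a ∨ a < 2 * j) ∧ y = g a k := by
  induction j with
  | zero => intro y; simpa using h0 y
  | succ j ih =>
    intro y
    have hp : 1 ≤ 2 ^ k := Nat.one_le_two_pow
    obtain ⟨t, ht⟩ : ∃ t, t + 1 = 2 ^ k + j := ⟨2 ^ k + j - 1, by omega⟩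
    have e1 : 2 ^ k + (j + 1) = t + 2 := by omega
    rw [e1, E_succ, ht, ih (by omega), x_eq (by omega) ht]
    constructor
    · rintro (⟨a, ha, h, rfl⟩ | rfl)
      · exact ⟨a, ha, h.imp id (by omega), rfl⟩
      · exact ⟨2 * j + 1, by rw [pow_succ]; omega, Or.inr (by omega), rfl⟩
    · rintro ⟨a, ha, h, rfl⟩
      by_cases h1 : a = 2 * j + 1
      · exact Or.inr (by rw [h1])
      · refine Or.inl ⟨a, ha, ?_, rfl⟩
        rcases h with h | h
        · exact Or.inl h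
        · by_cases h2 : a = 2 * j
          · exact Or.inl ⟨j, by omega⟩
          · exact Or.inr (by omega)

lemma E_base (k : ℕ) : ∀ y, y ∈ E (2 ^ k) ↔ ∃ a ≤ 2 ^ (k + 1), Even a ∧ y = g a k := by
  induction k with
  | zero =>
    intro y
    simp only [E, pow_zero, Set.mem_union, Set.mem_image, Set.mem_ofPred_eq, Set.mem_insert_iff,
      Set.mem_singleton_iff]
    constructor
    · rintro ((rfl | rfl) | ⟨i, hi, _⟩)
      · exact ⟨0, by norm_num, by norm_num, (g_zero 0).symm⟩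
      · exact ⟨2 ^ (0 + 1), le_rfl, by norm_num, (g_top 0).symm⟩
      · omega
    · rintro ⟨a, ha, h, rfl⟩
      have : a = 0 ∨ a = 2 ^ (0 + 1) := by obtain ⟨b, rfl⟩ := h; omega
      rcases this with rfl | rfl
      · exact Or.inl (Or.inl (g_zero 0))
      · exact Or.inl (Or.inr (g_top 0))
  | succ k ih =>
    intro y
    have e : 2 ^ (k + 1) = 2 ^ k + 2 ^ k := by rw [pow_succ]; omega
    have e2 : 2 ^ (k + 1 + 1) = 2 * 2 ^ (k + 1) := by rw [pow_succ]; omega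
    have := E_step k ih (2 ^ k) le_rfl y
    rw [← e] at this
    rw [this]
    constructor
    · rintro ⟨a, ha, _, rfl⟩
      exact ⟨2 * a, by omega, ⟨a, by omega⟩, (g_two a k).symm⟩
    · rintro ⟨a, ha, ⟨b, hb⟩, rfl⟩
      have hb' : a = 2 * b := by omega
      refine ⟨b, by omega, ?_, by rw [hb', g_two]⟩
      by_cases h : b = 2 ^ (k + 1)
      · exact Or.inl ⟨2 ^ k, by omega⟩
      · exact Or.inr (by omega)

lemma E_char {k j : ℕ} (hj : j ≤ 2 ^ k) (y : ℝ) :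
    y ∈ E (2 ^ k + j) ↔ ∃ a ≤ 2 ^ (k + 1), (Even a ∨ a < 2 * j) ∧ y = g a k :=
  E_step k (E_base k) j hj y

lemma x_not (m : ℕ) : x m ∉ E (m + 1) := by
  obtain ⟨k, j, hj, h⟩ := decomp (m + 1) (by omega)
  rw [x_eq hj h, h, E_char hj.le]
  rintro ⟨a, _, h1, h2⟩
  have : a = 2 * j + 1 := by
    have h3 := (g_le_iff k).1 h2.le
    have h4 := (g_le_iff k).1 h2.ge
    omega
  rcases h1 with ⟨b, hb⟩ | h1 <;> omega

noncomputable def S : Strategy where
  cut := x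
  mem := fun m => by
    obtain ⟨k, j, hj, h⟩ := decomp (m + 1) (by omega)
    rw [x_eq hj h]
    constructor
    · rw [← g_zero k]; exact g_lt k (by omega)
    · rw [← g_top k]; exact g_lt k (by rw [pow_succ]; omega)
  inj := fun a b hab => by
    by_contra hne
    rcases lt_or_gt_of_ne hne with h | h
    · exact x_not b (Or.inr ⟨a, by simpa using h, hab⟩)
    · exact x_not a (Or.inr ⟨b, by simpa using h, hab.symm⟩)

lemma len_char {k j : ℕ} (hj : j < 2 ^ k) {l : ℝ} (hl : l ∈ lengths S (2 ^ k + j)) :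
    (∃ a, a < 2 * j ∧ l = 2 * r k ^ a * (1 - r k)) ∨
    (∃ a, 2 * j ≤ a ∧ a + 2 ≤ 2 ^ (k + 1) ∧ l = 2 * r k ^ a * (1 - r k ^ 2)) := by
  obtain ⟨u, hu, v, hv, huv, hc, rfl⟩ := hl
  have hE : ends S (2 ^ k + j) = E (2 ^ k + j) := rfl
  rw [hE] at hu hv hc
  obtain ⟨a, ha, ha1, rfl⟩ := (E_char hj.le u).1 hu
  obtain ⟨b, hb, hb1, rfl⟩ := (E_char hj.le v).1 hv
  have hab := (g_lt_iff k).1 huv
  have e : 2 ^ (k + 1) = 2 * 2 ^ k := by rw [pow_succ]; omega
  have key : ∀ c ≤ 2 ^ (k + 1), (Even c ∨ c < 2 * j) → c ≤ a ∨ b ≤ c := fun c h1 h2 => by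
    have := hc (g c k) ((E_char hj.le _).2 ⟨c, h1, h2, rfl⟩)
    rwa [g_le_iff, g_le_iff] at this
  by_cases h : a < 2 * j
  · left
    have : b = a + 1 := by
      have := key (a + 1) (by omega) (by
        by_cases h2 : a + 1 = 2 * j
        · exact Or.inl ⟨j, by omega⟩
        · exact Or.inr (by omega))
      omega
    exact ⟨a, h, by rw [this]; unfold g; ring⟩
  · right
    obtain ⟨a', ha'⟩ : Even a := ha1.resolve_right h
    obtain ⟨b', hb'⟩ : Even b := hb1.resolve_right (by omega)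
    have : b = a + 2 := by
      have := key (a + 2) (by omega) (Or.inl ⟨a' + 1, by omega⟩)
      omega
    exact ⟨a, by omega, by omega, by rw [this]; unfold g; ring⟩

lemma ratio {k j : ℕ} (hj : j < 2 ^ k) {l₁ l₂ : ℝ} (h1 : l₁ ∈ lengths S (2 ^ k + j))
    (h2 : l₂ ∈ lengths S (2 ^ k + j)) : l₁ / l₂ ≤ r k + r k ^ 2 := by
  have p := r_pos k
  have q := r_lt k
  have e : 2 ^ (k + 1) = 2 * 2 ^ k := by rw [pow_succ]; omega
  have hle : ∀ {a b : ℕ}, a ≤ b → r k ^ b ≤ r k ^ a := fun h =>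
    pow_le_pow_of_le_one p.le q.le h
  have half : ∀ b, b + 2 ≤ 2 ^ (k + 1) → 1 / 2 ≤ r k ^ b * r k ^ 2 := fun b hb => by
    rw [← pow_add, ← r_pow k]; exact hle hb
  have q2 : 0 < 1 - r k ^ 2 := by nlinarith
  have q1 : 0 < 1 - r k := by linarith
  rcases len_char hj h1 with ⟨a, ha, rfl⟩ | ⟨a, ha, ha', rfl⟩ <;>
    rcases len_char hj h2 with ⟨b, hb, rfl⟩ | ⟨b, hb, hb', rfl⟩ <;>
    have pb := pow_pos p b <;> have pa := pow_pos p a <;>
    have a1 : r k ^ a ≤ 1 := pow_le_one₀ p.le q.le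
  · rw [div_le_iff₀ (by positivity)]
    have := half b (by omega)
    have h3 : r k ^ a ≤ (r k + r k ^ 2) * r k ^ b := by
      nlinarith [mul_nonneg pb.le (mul_nonneg p.le q1.le)]
    nlinarith
  · rw [div_le_iff₀ (by positivity)]
    have := half b hb'
    have h3 : r k ^ a ≤ (r k + r k ^ 2) * r k ^ b := by
      nlinarith [mul_nonneg pb.le (mul_nonneg p.le q1.le)]
    have h4 : 1 - r k ≤ 1 - r k ^ 2 := by nlinarith
    have h5 : r k ^ a * (1 - r k) ≤ ((r k + r k ^ 2) * r k ^ b) * (1 - r k ^ 2) :=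
      mul_le_mul h3 h4 q1.le (by positivity)
    nlinarith
  · rw [div_le_iff₀ (by positivity)]
    have h3 : r k ^ a ≤ r k ^ b * r k := by rw [← pow_succ]; exact hle (by omega)
    have h5 : r k ^ a * (1 - r k ^ 2) ≤ (r k ^ b * r k) * (1 - r k ^ 2) :=
      mul_le_mul_of_nonneg_right h3 q2.le
    nlinarith
  · rw [div_le_iff₀ (by positivity)]
    have := half b hb'
    have h3 : r k ^ a ≤ (r k + r k ^ 2) * r k ^ b := by
      nlinarith [mul_nonneg pb.le (mul_nonneg p.le q1.le)]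
    nlinarith

lemma disc_le (K : ℕ) : discN S (2 ^ (K + 1) - 1) ≤ r K + r K ^ 2 := by
  have p := r_pos K
  apply Real.sSup_le _ (by positivity)
  rintro y ⟨t, ht, htn, l₁, h1, l₂, h2, rfl⟩
  obtain ⟨k, j, hj, rfl⟩ := decomp t ht
  have hk : k ≤ K := by
    by_contra h
    have : 2 ^ (K + 1) ≤ 2 ^ k := Nat.pow_le_pow_right (by norm_num) (by omega)
    have : 1 ≤ 2 ^ (K + 1) := Nat.one_le_two_pow
    omega
  have := r_mono hk
  have := r_pos k
  exact (ratio hj h1 h2).trans (by nlinarith)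

lemma exp_neg_le {y : ℝ} (hy : 0 ≤ y) : Real.exp (-y) ≤ 1 - y + y ^ 2 := by
  have h := Real.add_one_le_exp y
  rw [Real.exp_neg, inv_le_iff_one_le_mul₀ (Real.exp_pos y)]
  have : 0 ≤ 1 - y + y ^ 2 := by nlinarith
  nlinarith [mul_le_mul_of_nonneg_left h this, pow_nonneg hy 3]

lemma r_bound (K : ℕ) :
    r K + r K ^ 2 ≤ 2 - 2 / 2 ^ (K + 1) + 5 / (2 ^ (K + 1)) ^ 2 := by
  set M : ℝ := 2 ^ (K + 1) with hM
  have hM0 : 0 < M := by positivity
  have l1 := Real.log_two_gt_d9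
  have l2 := Real.log_two_lt_d9
  have e1 : r K = Real.exp (-(Real.log 2 / M)) := by
    unfold r; rw [Real.rpow_def_of_pos (by norm_num)]; congr 1; rw [← hM]; ring
  have e2 : r K ^ 2 = Real.exp (-(2 * (Real.log 2 / M))) := by
    rw [e1, ← Real.exp_nat_mul]; congr 1; push_cast; ring
  have hy : 0 ≤ Real.log 2 / M := by positivity
  have b1 := exp_neg_le hy
  have b2 := exp_neg_le (show 0 ≤ 2 * (Real.log 2 / M) by positivity)
  have c1 : 2 / M ≤ 3 * (Real.log 2 / M) := by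
    rw [← mul_div_assoc]; exact div_le_div_of_nonneg_right (by linarith) hM0.le
  have c2 : (Real.log 2 / M) ^ 2 ≤ 1 / M ^ 2 := by
    rw [div_pow]; exact div_le_div_of_nonneg_right (by nlinarith) (by positivity)
  have c3 : 5 / M ^ 2 = 5 * (1 / M ^ 2) := by ring
  rw [e2, e1]; nlinarith

theorem result : ∃ S : Strategy, ∀ C : ℝ, ∃ n : ℕ, 1 ≤ n ∧
    discN S n < 2 - 3 / (2 * (n : ℝ)) - C / (n : ℝ) ^ 2 := by
  refine ⟨S, fun C => ?_⟩
  obtain ⟨K, hK⟩ := exists_nat_gt (2 * |C| + 20)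
  have h1 : K + 1 < 2 ^ (K + 1) := Nat.lt_two_pow_self
  refine ⟨2 ^ (K + 1) - 1, by omega, ((disc_le K).trans (r_bound K)).trans_lt ?_⟩
  obtain ⟨n, hn⟩ : ∃ n, 2 ^ (K + 1) = n + 1 := ⟨2 ^ (K + 1) - 1, by omega⟩
  have hn' : (2 : ℝ) ^ (K + 1) = n + 1 := by exact_mod_cast hn
  have hKn : (K : ℝ) ≤ n := by exact_mod_cast (by omega : K ≤ n)
  rw [hn', hn, Nat.add_sub_cancel]
  have hC := le_abs_self C
  have hC0 := abs_nonneg C
  have n0 : (0 : ℝ) < n := by linarith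
  have d1 : 5 / ((n : ℝ) + 1) ^ 2 ≤ 5 / (n : ℝ) ^ 2 :=
    div_le_div_of_nonneg_left (by norm_num) (by positivity) (by nlinarith)
  have d2 : (2 * n - 2) / (n : ℝ) ^ 2 ≤ 2 / ((n : ℝ) + 1) := by
    rw [div_le_div_iff₀ (by positivity) (by positivity)]; nlinarith
  have d3 : 3 / (2 * (n : ℝ)) = (3 / 2 * n) / (n : ℝ) ^ 2 := by field_simp
  have d4 : (3 / 2 * n) / (n : ℝ) ^ 2 + C / (n : ℝ) ^ 2 + 5 / (n : ℝ) ^ 2
      < (2 * n - 2) / (n : ℝ) ^ 2 := by
    rw [← add_div, ← add_div]; exact div_lt_div_of_pos_right (by linarith) (by positivity)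
  rw [d3]; linarith

end Pool.Agent.Results.MP_32269d_co.Dyadic
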